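import Pool.Agent.NUS4.PhLog
import Pool.Agent.NURow.Pcut
import Pool.Agent.NUGC.DefC

/-!
# The cutoff factor of the pairs of rows as an analytic potential in the bulk

`lphP ep M z = log (phP M β (l + i z))`, `β = (4/3) (1 - ep)`: for `m ≤ 5 M`, `m` large,
`|re z| ≤ (1 - e) (3/8) log m + 5` and `|im z| ≤ ep / 2` it is analytic and tiny.
-/

set_option autoImplicit false

open MeasureTheory Set Filter Topology

namespace NUS4C

open NUP1 NURow NUGC
open NUS4 (R1f uz uz_re uz_im uz_curve)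

noncomputable section

/-- logarithm of the cutoff factor of `M` pairs of rows -/
def lphP (ep : ℝ) (M : ℕ) (z : ℂ) : ℂ := Complex.log (phP M (4 / 3 * (1 - ep)) (uz z))

lemma PsiP_eq (β : ℝ) (u : ℂ) : PsiP β u = Psi β u := by
  unfold PsiP Psi
  push_cast
  rfl

/-- the cutoff of a pair is analytic on the whole strip -/
theorem differentiableAt_Psi' {β s : ℝ} (h2 : 2 * β * NUP1.l < Real.pi / 2) (h : Adm β s) {u : ℂ}
    (hu : |u.re + NUP1.l / 2| ≤ s) : DifferentiableAt ℂ (Psi β) u := by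
  have hk := h.kap_pos
  have hre : kap β s * Real.cosh (2 * β * u.im) ≤ (ca β u).re := re_cos_ge h hu
  have hch := Real.cosh_pos (2 * β * u.im)
  have hre0 : 0 < (ca β u).re := lt_of_lt_of_le (mul_pos hk hch) hre
  have hca : DifferentiableAt ℂ (ca β) u := by
    unfold ca
    fun_prop
  have h3 := c2_pos h2 h
  have n1 : ca β u + 1 ≠ 0 := by
    intro e
    have := congrArg Complex.re e
    simp only [Complex.add_re, Complex.one_re, Complex.zero_re] at this
    linarith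
  have n2 : ca β u + c2 β ≠ 0 := by
    intro e
    have := congrArg Complex.re e
    simp only [Complex.add_re, Complex.ofReal_re, Complex.zero_re] at this
    linarith
  have e : Psi β = fun u => ((ca β u - 1) / (ca β u + 1)) * ((ca β u - c2 β) / (ca β u + c2 β)) :=
    funext fun u => Psi_eq β u
  rw [e]
  exact ((hca.sub_const _).div (hca.add_const _) n1).mul ((hca.sub_const _).div (hca.add_const _) n2)

/-- the exponents of the pair cutoff -/
lemma beta_pair {ep : ℝ} (hep : 0 < ep) : 2 * (4 / 3 * (1 - ep)) * NUP1.l < Real.pi / 2 := by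
  unfold NUP1.l
  have := Real.pi_pos
  nlinarith [mul_pos hep this]

/-- the power of `Psi` is tiny in the bulk -/
theorem PsiP_pow_le {ep e : ℝ} (hep : 0 < ep) (hep1 : ep < 1) (he : 0 < e) (_he1 : e ≤ 1) :
    ∃ m0 : ℕ, 1 ≤ m0 ∧ ∀ m : ℕ, m0 ≤ m → ∀ M : ℕ, (m : ℝ) ≤ 5 * M → ∀ z : ℂ, |z.re| ≤ R1f e m + 5 →
      |z.im| ≤ ep / 2 → ‖PsiP (4 / 3 * (1 - ep)) (uz z) ^ M‖ ≤ Real.exp (-(m : ℝ) ^ (e / 2)) := by
  have hA := adm (ε := ep) (r := ep / 2) hep hep1 (by positivity) le_rfl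
  have h2b := beta_pair hep
  set β := 4 / 3 * (1 - ep) with hβ
  set sa := 3 * NUP1.l / 2 + ep / 2 with hsa
  have hk := hA.kap_pos
  have hc2 := c2_pos h2b hA
  set c0 := (1 + c2 β) * kap β sa / 2 with hc0
  have hc00 : 0 < c0 := by positivity
  have h1 : Tendsto (fun m : ℕ => (m : ℝ) ^ (e / 2)) atTop atTop :=
    (tendsto_rpow_atTop (by positivity)).comp tendsto_natCast_atTop_atTop
  obtain ⟨m1, hm1⟩ := eventually_atTop.1 (h1.eventually_ge_atTop (5 * Real.exp 11 / c0))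
  refine ⟨max 1 m1, le_max_left _ _, fun m hm M hM z hz hz' => ?_⟩
  have hm0 : 1 ≤ m := (le_max_left _ _).trans hm
  have hmr : (1 : ℝ) ≤ m := by exact_mod_cast hm0
  have hmp : (0 : ℝ) < m := by linarith
  have hL := Real.log_nonneg hmr
  have hin : |(uz z).re + NUP1.l / 2| ≤ sa := by
    rw [uz_re, hsa, abs_le]
    obtain ⟨a1, a2⟩ := abs_le.1 hz'
    have := NUP1.l_pos
    constructor <;> linarith
  have h2 := norm_Psi_pow h2b hA hin M
  rw [uz_im] at h2
  rw [PsiP_eq]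
  refine h2.trans (Real.exp_le_exp.2 (neg_le_neg ?_))
  have h3 : Real.exp (-11) * (m : ℝ) ^ (-(1 - e)) ≤ Real.exp (-(2 * β) * |z.re|) := by
    rw [Real.rpow_def_of_pos hmp, ← Real.exp_add]
    refine Real.exp_le_exp.2 ?_
    have h4 : 2 * β * |z.re| ≤ 8 / 3 * |z.re| := by
      refine mul_le_mul_of_nonneg_right ?_ (abs_nonneg _)
      rw [hβ]
      linarith
    have h5 : 8 / 3 * |z.re| ≤ 8 / 3 * (R1f e m + 5) := by linarith
    unfold R1f at h5
    nlinarith
  have h6 : (m : ℝ) / 5 * (c0 * (Real.exp (-11) * (m : ℝ) ^ (-(1 - e)))) ≤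
      M * (c0 * Real.exp (-(2 * β) * |z.re|)) := by
    have : 0 ≤ c0 * (Real.exp (-11) * (m : ℝ) ^ (-(1 - e))) := by positivity
    have h7 : c0 * (Real.exp (-11) * (m : ℝ) ^ (-(1 - e))) ≤
        c0 * Real.exp (-(2 * β) * |z.re|) := mul_le_mul_of_nonneg_left h3 hc00.le
    exact mul_le_mul (by linarith) h7 this (by positivity)
  have h6' : c0 * (M * Real.exp (-(2 * β) * |z.re|)) = M * (c0 * Real.exp (-(2 * β) * |z.re|)) := by
    ring
  rw [h6']
  refine le_trans ?_ h6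
  have h8 : (m : ℝ) / 5 * (c0 * (Real.exp (-11) * (m : ℝ) ^ (-(1 - e)))) =
      (c0 / (5 * Real.exp 11) * (m : ℝ) ^ (e / 2)) * (m : ℝ) ^ (e / 2) := by
    have h9 : (m : ℝ) * (m : ℝ) ^ (-(1 - e)) = (m : ℝ) ^ (e / 2) * (m : ℝ) ^ (e / 2) := by
      rw [← Real.rpow_add hmp, ← Real.rpow_one_add' hmp.le (by linarith)]
      congr 1
      ring
    rw [Real.exp_neg, div_eq_mul_inv c0, mul_inv]
    linear_combination (c0 * (Real.exp 11)⁻¹ / 5) * h9
  rw [h8]
  have h10 := hm1 m ((le_max_right _ _).trans hm)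
  have h11 : 1 ≤ c0 / (5 * Real.exp 11) * (m : ℝ) ^ (e / 2) := by
    calc (1 : ℝ) = c0 / (5 * Real.exp 11) * (5 * Real.exp 11 / c0) := by field_simp
      _ ≤ _ := mul_le_mul_of_nonneg_left h10 (by positivity)
  exact le_mul_of_one_le_left (by positivity) h11

/-- **the cutoff factor of the pairs in the bulk** -/
theorem exists_lphP {ep e : ℝ} (hep : 0 < ep) (hep1 : ep < 1) (he : 0 < e) (he1 : e ≤ 1) :
    ∃ m0 : ℕ, 1 ≤ m0 ∧ ∀ m : ℕ, m0 ≤ m → ∀ M : ℕ, (m : ℝ) ≤ 5 * M → ∀ z : ℂ, |z.re| ≤ R1f e m + 5 →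
      |z.im| ≤ ep / 2 → DifferentiableAt ℂ (lphP ep M) z ∧
        ‖lphP ep M z‖ ≤ 2 * Real.exp (-(m : ℝ) ^ (e / 2)) ∧ ‖lphP ep M z‖ ≤ 1 ∧
        ‖phP M (4 / 3 * (1 - ep)) (uz z)‖ = Real.exp (lphP ep M z).re := by
  obtain ⟨m0, h0, H⟩ := PsiP_pow_le hep hep1 he he1
  have h1 : Tendsto (fun m : ℕ => (m : ℝ) ^ (e / 2)) atTop atTop :=
    (tendsto_rpow_atTop (by positivity)).comp tendsto_natCast_atTop_atTop
  obtain ⟨m1, hm1⟩ := eventually_atTop.1 (h1.eventually_ge_atTop (Real.log 4))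
  refine ⟨max m0 m1, h0.trans (le_max_left _ _), fun m hm M hM z hz hz' => ?_⟩
  have h2 := H m ((le_max_left _ _).trans hm) M hM z hz hz'
  have h3 := hm1 m ((le_max_right _ _).trans hm)
  have h4 : Real.exp (-(m : ℝ) ^ (e / 2)) ≤ 1 / 4 := by
    rw [Real.exp_neg, one_div]
    refine inv_anti₀ (by norm_num) ?_
    calc (4 : ℝ) = Real.exp (Real.log 4) := (Real.exp_log (by norm_num)).symm
      _ ≤ _ := Real.exp_le_exp.2 h3
  set x := PsiP (4 / 3 * (1 - ep)) (uz z) ^ M with hx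
  have hph : phP M (4 / 3 * (1 - ep)) (uz z) = 1 + -x := by
    unfold phP
    rw [← hx, sub_eq_add_neg]
  have hx1 : ‖-x‖ ≤ 1 / 4 := by
    rw [norm_neg]
    exact h2.trans h4
  have hsl : 1 + -x ∈ Complex.slitPlane :=
    Complex.mem_slitPlane_of_norm_lt_one (by linarith)
  have hn : ‖lphP ep M z‖ ≤ 2 * Real.exp (-(m : ℝ) ^ (e / 2)) := by
    unfold lphP
    rw [hph]
    have h5 := Complex.norm_log_one_add_half_le_self (z := -x) (by linarith)
    rw [norm_neg] at h5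
    have := Real.exp_pos (-(m : ℝ) ^ (e / 2))
    linarith
  refine ⟨?_, hn, by linarith, ?_⟩
  · have hA := adm (ε := ep) (r := ep / 2) hep hep1 (by positivity) le_rfl
    have hin : |(uz z).re + NUP1.l / 2| ≤ 3 * NUP1.l / 2 + ep / 2 := by
      rw [uz_re, abs_le]
      obtain ⟨a1, a2⟩ := abs_le.1 hz'
      have := NUP1.l_pos
      constructor <;> linarith
    have hd : DifferentiableAt ℂ (PsiP (4 / 3 * (1 - ep))) (uz z) := by
      have := differentiableAt_Psi' (beta_pair hep) hA hin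
      rwa [show PsiP (4 / 3 * (1 - ep)) = Psi (4 / 3 * (1 - ep)) from funext (PsiP_eq _)]
    have hu : DifferentiableAt ℂ uz z := by
      unfold uz
      fun_prop
    have h6 : DifferentiableAt ℂ (fun z => phP M (4 / 3 * (1 - ep)) (uz z)) z := by
      unfold phP
      exact ((hd.comp z hu).pow M).const_sub 1
    unfold lphP
    refine h6.clog ?_
    rw [hph]
    exact hsl
  · have hne : (1 + -x) ≠ 0 := Complex.slitPlane_ne_zero hsl
    unfold lphP
    rw [hph, ← Complex.norm_exp, Complex.exp_log hne]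

end

end NUS4C
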