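import Pool.Agent.NUBR.Z1B
import Pool.Agent.NUS4.GDO
import Pool.Agent.NUSea.Inst
import Pool.Agent.NUGC.DefC

/-!
# The row factor of TARGET-C on the curve

`Rrow_line`: `Rrow κ (l + i z) = 2 cos l · exp (2 κ Re vc z)` for `|Im z| < l / 2`, with the field
`vc` of the sea `seaH` of the rows at `± l / 2`; `Rrow_pA`: the same on the curve.
-/

set_option autoImplicit false

noncomputable section

open Complex

namespace NUS4C

open NUGC

/-- the field of the sea of the rows at `± l / 2` -/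
lemma vcH_eq (z : ℂ) : @NUSea.vc NUSea.seaH z =
    (NUAct.vc (z + (NUMF.l / 2 : ℝ) * I) + NUAct.vc (z - (NUMF.l / 2 : ℝ) * I)) / 2 := by
  show NUSea.av NUAct.vs z + NUSea.av NUAct.vx z = _
  unfold NUSea.av
  rw [NUAct.vc_eq, NUAct.vc_eq]
  ring

/-- one row at `x` -/
theorem rwN_line (x : ℝ) {z : ℂ} (hz : |(z + x * I).im| < NUMF.l) :
    rwN x (NUP1.l + I * z) = Real.exp (NUAct.vc (z + x * I)).re := by
  have h := NUBR.RNr_line 1 (z := z + x * I) hz
  have e0 : (NUP1.l : ℂ) + I * (z + x * I) = NUP1.l + I * z - x := by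
    linear_combination (x : ℂ) * Complex.I_mul_I
  rw [e0, one_mul, NUS4.re_vc hz] at h
  have hc : 0 < Real.cos NUP1.l := by
    refine Real.cos_pos_of_mem_Ioo ⟨?_, ?_⟩ <;> unfold NUP1.l <;> linarith [Real.pi_pos]
  unfold NUCR.RNr at h
  rw [Real.rpow_one] at h
  exact mul_left_cancel₀ (by positivity : 2 * Real.cos NUP1.l ≠ 0) h

/-- a pair of rows at `± l / 2` -/
theorem prN_line {z : ℂ} (hz : |z.im| < NUMF.l / 2) :
    prN (NUP1.l + I * z) = Real.exp (2 * (@NUSea.vc NUSea.seaH z).re) := by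
  obtain ⟨h1, h2⟩ := abs_lt.1 hz
  have hl := NUMF.l_pos
  have a1 : |(z + ((NUP1.l / 2 : ℝ) : ℂ) * I).im| < NUMF.l := by
    have : (z + ((NUP1.l / 2 : ℝ) : ℂ) * I).im = z.im + NUMF.l / 2 := by
      simp [show NUP1.l = NUMF.l from rfl]
    rw [this, abs_lt]
    constructor <;> linarith
  have a2 : |(z + ((-(NUP1.l / 2) : ℝ) : ℂ) * I).im| < NUMF.l := by
    have : (z + ((-(NUP1.l / 2) : ℝ) : ℂ) * I).im = z.im - NUMF.l / 2 := by
      simp [show NUP1.l = NUMF.l from rfl]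
      ring
    rw [this, abs_lt]
    constructor <;> linarith
  unfold prN
  rw [rwN_line _ a1, rwN_line _ a2, ← Real.exp_add, vcH_eq]
  congr 1
  have e1 : z + ((NUP1.l / 2 : ℝ) : ℂ) * I = z + (NUMF.l / 2 : ℝ) * I := rfl
  have e2 : z + ((-(NUP1.l / 2) : ℝ) : ℂ) * I = z - (NUMF.l / 2 : ℝ) * I := by
    rw [show NUP1.l = NUMF.l from rfl]
    push_cast
    ring
  rw [e1, e2]
  have e3 : (2 : ℂ) = ((2 : ℝ) : ℂ) := by norm_num
  rw [e3, Complex.div_ofReal_re, Complex.add_re]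
  ring

/-- **the row factor on the curve** -/
theorem Rrow_line (κ : ℝ) {z : ℂ} (hz : |z.im| < NUMF.l / 2) :
    Rrow κ (NUP1.l + I * z) = 2 * Real.cos NUP1.l * Real.exp (2 * κ * (@NUSea.vc NUSea.seaH z).re) := by
  unfold Rrow
  rw [prN_line hz, ← Real.exp_mul]
  congr 2
  ring

/-- the row factor on the curve -/
theorem Rrow_pA (κ : ℝ) {η : ℝ → ℝ} {t : ℝ} (h : |η t| < NUMF.l / 2) :
    Rrow κ (NUO.pA η t) = 2 * Real.cos NUP1.l *
      Real.exp (2 * κ * (@NUSea.vc NUSea.seaH (NUAct.zt (NUKer.iD η) t)).re) := by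
  have e : NUO.pA η t = NUP1.l + I * (NUAct.zt (NUKer.iD η) t) := (NUBR.line_pt (η t) t)
  rw [e, Rrow_line]
  have : (NUAct.zt (NUKer.iD η) t).im = η t := by
    unfold NUAct.zt NUKer.iD
    simp
  rw [this]
  exact h

/-- the activity separated -/
theorem Rrow_act (κ : ℝ) {η : ℝ → ℝ} {t : ℝ} (h : |η t| < NUMF.l / 2) :
    (2 * Real.pi)⁻¹ * Rrow κ (NUO.pA η t) = NUMFC.act *
      Real.exp (2 * κ * (@NUSea.vc NUSea.seaH (NUAct.zt (NUKer.iD η) t)).re) := by
  rw [Rrow_pA κ h, ← mul_assoc, NUBR.act_cos]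

end NUS4C

end
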