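import Pool.Agent.NUS4C.GDO
import Pool.Agent.NUSp.Tot
import Pool.Agent.NUSea.H0.ShlC
import Pool.Agent.NUSea.H0.DatC

/-!
# The data `GD` of the sharp bound with spectators

`norm_DD`: the potential of the ends and of the groups grows at most linearly; `gd_DD`: the one body
factors with objects, ends, near groups and the cutoff of the pairs of rows satisfy `NUS4C.GD`;
`gd_inp`: the same for the one body factors `aR (datO I P O) ra a` of the data of a configuration.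
-/

set_option autoImplicit false
set_option linter.unusedSectionVars false

open MeasureTheory Set Filter Topology

namespace NUS4C

open NUE NUOC NUKer NUR2 NUDi NUO NUGC NUSp
open NUS4 (R1f)

noncomputable section

/-- **size of the potential of the ends and of the groups**: ends at height `0`, groups at heights at
most `X` -/
theorem norm_DD {δ b X : ℝ} (hb0 : 0 < b) (hb : b < δ * NUMF.l) {p q : ℂ} (hp : Away δ p)
    (hq : Away δ q) (hp0 : p.im = 0) (hq0 : q.im = 0) {L : List Grp}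
    (hL : ∀ G ∈ L, gn G ≤ 15 ∧ ∃ τ, |τ| ≤ X ∧ G.Ok δ τ) (hX : 0 ≤ X) (s : Bool) {z : ℂ}
    (hz : |z.im| < b) : ‖DD p q L s z‖ ≤ |kb δ b| * (2 + 15 * L.length) * (1 + |z.re| + X) := by
  have h1 := (potB_th hb0 hb hp hq (by rw [hp0, hq0])).val z hz
  rw [hp0, sub_zero] at h1
  have hk := abs_nonneg (kb δ b)
  have hz0 := abs_nonneg z.re
  have h1' : ‖th p q z‖ ≤ |kb δ b| * 2 * (1 + |z.re| + X) := by
    calc ‖th p q z‖ ≤ 2 * kb δ b * (1 + |z.re|) := h1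
      _ ≤ |kb δ b| * 2 * (1 + |z.re|) := by
          have := le_abs_self (kb δ b)
          refine mul_le_mul_of_nonneg_right (by linarith) (by positivity)
      _ ≤ _ := by
          refine mul_le_mul_of_nonneg_left (by linarith) (by positivity)
  have h2 : ∀ L : List Grp, (∀ G ∈ L, gn G ≤ 15 ∧ ∃ τ, |τ| ≤ X ∧ G.Ok δ τ) →
      ‖(L.map fun G => gp s G z).sum‖ ≤ |kb δ b| * (15 * L.length) * (1 + |z.re| + X) := by
    intro L hL
    induction L with
    | nil => simp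
    | cons a L ih =>
      obtain ⟨hg, τ, hτ, ha⟩ := hL a (by simp)
      have h3 := (potB_gp hb0 hb s ha).val z hz
      have h4 := ih fun x hx => hL x (by simp [hx])
      have h5 : |z.re - τ| ≤ |z.re| + X := (abs_sub _ _).trans (by linarith)
      have h6 : ‖gp s a z‖ ≤ |kb δ b| * 15 * (1 + |z.re| + X) := by
        calc ‖gp s a z‖ ≤ gn a * kb δ b * (1 + |z.re - τ|) := h3
          _ ≤ 15 * |kb δ b| * (1 + |z.re - τ|) := by
              have h7 := gn_nonneg a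
              have h8 : gn a * kb δ b ≤ 15 * |kb δ b| := by
                calc gn a * kb δ b ≤ gn a * |kb δ b| := mul_le_mul_of_nonneg_left (le_abs_self _) h7
                  _ ≤ _ := mul_le_mul_of_nonneg_right hg hk
              exact mul_le_mul_of_nonneg_right h8 (by positivity)
          _ ≤ 15 * |kb δ b| * (1 + |z.re| + X) := by
              refine mul_le_mul_of_nonneg_left (by linarith) (by positivity)
          _ = _ := by ring
      rw [List.map_cons, List.sum_cons, List.length_cons]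
      refine (norm_add_le _ _).trans ((add_le_add h6 h4).trans (le_of_eq ?_))
      push_cast
      ring
  unfold DD
  refine (norm_add_le _ _).trans ((add_le_add h1' (h2 L hL)).trans (le_of_eq ?_))
  ring

variable [NUSea.Sea]

/-- **the data of the sharp bound with near spectators**: `gd_conf` with `A a = DD p q L a`, ends at
height `0`, at most `N` groups at heights at most `(log m)²`, real rests `Er` -/
theorem gd_DD {ep e1 κ δ : ℝ} (hep : 0 < ep) (hep1 : ep ≤ 1 / 100) (he : 0 < e1) (he1 : e1 ≤ 1 / 4)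
    (hκ : 0 < κ) (hδ : ep / 2 < δ * NUMF.l) (N k : ℕ) (hk : 3 ≤ k) : ∃ m0 : ℕ, ∀ m ≥ m0,
    ∀ (s R c0 : ℝ) (M : ℕ) (P : Par) (η η1 : ℝ → ℝ) (p q : ℂ) (L : List Grp) (Er : Bool → ℝ → ℝ)
    (r : ℕ) (O : Fin r → Xo) (aX aY : ℝ → ℝ),
    (m : ℝ) / 2 ≤ s → s ≤ 2 * m → (m : ℝ) ≤ 5 * M → PG (1 / 8) P → Real.log m ≤ R →
    R ≤ 2 * Real.log m ^ 2 → (1 - e1) * Tb (Real.log m) + 3 ≤ R →
    (∃ (ε Mc : ℝ) (ec : ℝ → ℝ), NUSea.Cur s ε Mc ((1 - e1) * Tb (Real.log m)) ec η ∧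
      ε ≤ (m : ℝ) ^ (-κ) ∧ Mc ≤ Real.log m ^ k) →
    (∀ t, HasDerivAt η (η1 t) t) →
    Away δ p → Away δ q → p.im = 0 → q.im = 0 → L.length ≤ N →
    (∀ G ∈ L, gn G ≤ 15 ∧ ∃ τ, |τ| ≤ Real.log m ^ 2 ∧ G.Ok δ τ) →
    (∀ a, NUR2.Ext 4 ((1 - e1) * Tb (Real.log m)) (Real.log m ^ k) (Er a)) →
    |c0| ≤ Real.log m ^ k → (r : ℝ) ≤ Real.log m → (∀ i, |ht (O i)| ≤ Real.log m ^ 2) →
    (∀ t, 0 ≤ aX t) → (∀ t, 0 ≤ aY t) → Measurable aX → Measurable aY →
    (∀ t, |t| ≤ (1 - e1) * Tb (Real.log m) → aX t = Real.exp (s * (NUSea.vc (NUAct.zt (iD η) t)).re +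
      (DD p q L true (NUAct.zt (iD η) t)).re + Er true t + c0) *
        ‖phP M (4 / 3 * (1 - ep)) (pA η t)‖ * ∏ i, potN P O i true (pA η t)) →
    (∀ t, |t| ≤ (1 - e1) * Tb (Real.log m) → aY t = Real.exp (s * (NUSea.vc (NUAct.zt (iD η) t)).re +
      (DD p q L false (NUAct.zt (iD η) t)).re + Er false t + c0) *
        ‖phP M (4 / 3 * (1 - ep)) (pA η t)‖ * ∏ i, potN P O i false (pA η t)) →
    GD m (k + 5) κ e1 (ep / 2) s R ((1 - e1) * Tb (Real.log m)) η η1 η η1 aX aY := by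
  obtain ⟨m1, H⟩ := gd_conf hep hep1 he he1 hκ k
  obtain ⟨K, hK⟩ : ∃ K : ℝ, K = |kb δ (ep / 2)| * (2 + 15 * N) := ⟨_, rfl⟩
  have hK0 : 0 ≤ K := by rw [hK]; positivity
  have h4 := (Real.tendsto_log_atTop.comp tendsto_natCast_atTop_atTop).eventually_ge_atTop
    (max 3 (3 * K))
  obtain ⟨m2, hm2⟩ := Filter.eventually_atTop.1 h4
  refine ⟨max m1 m2, fun m hm s R c0 M P η η1 p q L Er r O aX aY hs1 hs2 hM hP hR1 hR2 hbR hcur hd hp hq
    hp0 hq0 hLN hL hEr hc0 hr hht ha0 hb0 ham hbm hX hY => ?_⟩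
  have g : max 3 (3 * K) ≤ Real.log m := hm2 m ((le_max_right _ _).trans hm)
  have g1 : 3 ≤ Real.log m := (le_max_left _ _).trans g
  have g2 : 3 * K ≤ Real.log m := (le_max_right _ _).trans g
  obtain ⟨l, hl⟩ : ∃ l, l = Real.log m := ⟨_, rfl⟩
  refine H m ((le_max_left _ _).trans hm) s R c0 M P η η1 (fun a => DD p q L a) Er r O aX aY hs1 hs2 hM
    hP hR1 hR2 hbR hcur hd ?_ hEr hc0 hr hht ha0 hb0 ham hbm hX hY
  intro a z hz1 hz2
  have hw0 : 0 < ep / 2 := by linarith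
  refine ⟨(hasDerivAt_DD hw0 hδ hp hq (by rw [hp0, hq0]) (fun G hG => ?_) a hz2).differentiableAt, ?_⟩
  · obtain ⟨-, τ, -, h⟩ := hL G hG
    exact ⟨τ, h⟩
  · have h1 := norm_DD hw0 hδ hp hq hp0 hq0 hL (by positivity) a hz2
    refine h1.trans ?_
    rw [← hl] at hz1 g1 g2 ⊢
    have hb2 : (1 - e1) * Tb l ≤ l := by
      unfold Tb
      nlinarith
    have h2 : 1 + |z.re| + l ^ 2 ≤ 3 * l ^ 2 := by nlinarith
    have h3 : |kb δ (ep / 2)| * (2 + 15 * (L.length : ℝ)) ≤ K := by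
      rw [hK]
      have : (L.length : ℝ) ≤ N := by exact_mod_cast hLN
      gcongr
    calc |kb δ (ep / 2)| * (2 + 15 * (L.length : ℝ)) * (1 + |z.re| + l ^ 2) ≤ K * (3 * l ^ 2) := by
          gcongr
      _ = 3 * K * l ^ 2 := by ring
      _ ≤ l * l ^ 2 := by gcongr
      _ = l ^ 3 := by ring
      _ ≤ l ^ k := pow_le_pow_right₀ (by linarith) hk

open NUSea.H0 in
/-- **the data of the sharp bound for the data `datO I P O`**, one body factors `aR`, cutoff factor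
`cf` (equal to the cutoff of the pairs in the bulk) -/
theorem gd_inp {ep e1 κ δ : ℝ} (hep : 0 < ep) (hep1 : ep ≤ 1 / 100) (he : 0 < e1) (he1 : e1 ≤ 1 / 4)
    (hκ : 0 < κ) (hδ : ep / 2 < δ * NUMF.l) (N k : ℕ) (hk : 3 ≤ k) : ∃ m0 : ℕ, ∀ m ≥ m0,
    ∀ (I : Inp) (P : Par) (R : ℝ) (M : ℕ) (p q : ℂ) (L : List Grp) (r : ℕ) (O : Fin r → Xo)
    (ra : Bool → ℝ → ℝ) (cf : ℝ → ℝ) (Cκ : ℝ),
    (m : ℝ) / 2 ≤ I.s → I.s ≤ 2 * m → (m : ℝ) ≤ 5 * M → PG (1 / 8) P → Real.log m ≤ R →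
    R ≤ 2 * Real.log m ^ 2 → (1 - e1) * Tb (Real.log m) + 3 ≤ R →
    (∃ (ε Mc : ℝ) (ec : ℝ → ℝ), NUSea.Cur I.s ε Mc ((1 - e1) * Tb (Real.log m)) ec I.η ∧
      ε ≤ (m : ℝ) ^ (-κ) ∧ Mc ≤ Real.log m ^ k) →
    (∀ t, HasDerivAt I.η (I.η1 t) t) → Geo (datO I P O) Cκ → (∀ a, I.A a = DD p q L a) →
    Away δ p → Away δ q → p.im = 0 → q.im = 0 → L.length ≤ N →
    (∀ G ∈ L, gn G ≤ 15 ∧ ∃ τ, |τ| ≤ Real.log m ^ 2 ∧ G.Ok δ τ) →
    (∀ a, NUR2.Ext 4 ((1 - e1) * Tb (Real.log m)) (Real.log m ^ k) (ra a)) →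
    (∀ a, Measurable (ra a)) → Measurable cf → (∀ t, 0 ≤ cf t) →
    (∀ t, |t| ≤ (1 - e1) * Tb (Real.log m) → cf t = ‖phP M (4 / 3 * (1 - ep)) (pA I.η t)‖) →
    (r : ℝ) ≤ Real.log m → (∀ i, |ht (O i)| ≤ Real.log m ^ 2) →
    GD m (k + 5) κ e1 (ep / 2) I.s R ((1 - e1) * Tb (Real.log m)) I.η I.η1 I.η I.η1
      (fun t => aR (datO I P O) ra true t * cf t) (fun t => aR (datO I P O) ra false t * cf t) := by
  obtain ⟨m1, H⟩ := gd_DD (κ := κ) (δ := δ) hep hep1 he he1 hκ hδ N k hk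
  have h2 : Filter.Tendsto (fun m : ℕ => (m : ℝ) ^ (-κ)) Filter.atTop (nhds 0) :=
    (tendsto_rpow_neg_atTop hκ).comp tendsto_natCast_atTop_atTop
  have h3 := h2.eventually_lt_const (u := 1 / 100) (by norm_num)
  have h4 := (Real.tendsto_log_atTop.comp tendsto_natCast_atTop_atTop).eventually_ge_atTop (1 : ℝ)
  obtain ⟨m2, hm2⟩ := Filter.eventually_atTop.1 (h3.and h4)
  refine ⟨max m1 m2, fun m hm I P R M p q L r O ra cf Cκ hs1 hs2 hM hP hR1 hR2 hbR hcur hd hG hA hp hq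
    hp0 hq0 hLN hL hra hram hcfm hcf0 hcf hr hht => ?_⟩
  obtain ⟨g1, g2⟩ := hm2 m ((le_max_right _ _).trans hm)
  have g2' : 1 ≤ Real.log m := g2
  have hη : ∀ t, |I.η t| < 1 / 8 * NUMF.l := by
    intro t
    obtain ⟨ε, Mc, ec, hc, hc1, -⟩ := hcur
    have h5 := hc.O4.1 t
    have hlv : (98 : ℝ) / 250 < NUMF.l := by
      unfold NUMF.l
      have := Real.pi_gt_d2
      linarith
    have h6 : |I.η t| ≤ (m : ℝ) ^ (-κ) := h5.trans hc1
    linarith
  have key : ∀ a t, |t| ≤ (1 - e1) * Tb (Real.log m) → aR (datO I P O) ra a t * cf t =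
      Real.exp (I.s * (NUSea.vc (NUAct.zt (iD I.η) t)).re + (DD p q L a (NUAct.zt (iD I.η) t)).re +
        ra a t + 0) * ‖phP M (4 / 3 * (1 - ep)) (pA I.η t)‖ * ∏ i, potN P O i a (pA I.η t) := by
    intro a t ht
    have hpr : (∏ i, potN P O i a (pA I.η t)) = Real.exp (FO P O a (t + (I.η t : ℂ) * Complex.I)).re :=
      prod_potN O hP a (hη t)
    rw [hcf t ht, hpr]
    have hzt : NUAct.zt (iD I.η) t = (t : ℂ) + (I.η t : ℂ) * Complex.I := rfl
    have e1 : aR (datO I P O) ra a t = Real.exp (I.s * (NUSea.vc (NUAct.zt (iD I.η) t)).re +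
        (FO P O a (NUAct.zt (iD I.η) t) + I.A a (NUAct.zt (iD I.η) t)).re + ra a t) := rfl
    rw [e1, hA a, Complex.add_re, hzt]
    rw [show ∀ x y z w c : ℝ, Real.exp (x + (y + z) + w) * c = Real.exp (x + z + w + 0) * c * Real.exp y
      from fun x y z w c => by
        rw [show x + (y + z) + w = (x + z + w + 0) + y by ring, Real.exp_add]
        ring]
  refine H m ((le_max_left _ _).trans hm) I.s R 0 M P I.η I.η1 p q L ra r O _ _ hs1 hs2 hM hP hR1 hR2 hbR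
    hcur hd hp hq hp0 hq0 hLN hL hra (by rw [abs_zero]; positivity) hr hht
    (fun t => mul_nonneg (Real.exp_pos _).le (hcf0 t)) (fun t => mul_nonneg (Real.exp_pos _).le (hcf0 t))
    ((aR_meas hG (hram true)).mul hcfm) ((aR_meas hG (hram false)).mul hcfm) (key true) (key false)

end

end NUS4C
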