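import Pool.Agent.NUS4C.Sharp
import Pool.Agent.NUS4C.PhLog
import Pool.Agent.NUS4.GDO

/-!
# The data `GD` of the sharp bound for a general sea, cutoff of pairs of rows

* `cur_gen`: `h / (s P)` is an admissible displacement for `h` with polylogarithmic derivatives and
  support `(1 - e1) T`;
* `gd_conf`: the one body factors of a configuration of at most `log m` objects at heights at most
  `(log m)²`, with extra analytic potentials `A` and real rests `Er`, satisfy `NUS4C.GD`.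
-/

set_option autoImplicit false
set_option linter.unusedSectionVars false

open MeasureTheory Set Filter Topology

namespace NUS4C

open NUE NUOC NUKer NUR2 NUDi NUO NUGC
open NUS4 (R1f uz uz_re uz_im uz_curve)

noncomputable section

variable [NUSea.Sea]

/-- **currents with polylogarithmic derivatives** give admissible displacements -/
theorem cur_gen {e1 : ℝ} (he : 0 < e1) (he1 : e1 ≤ 1) (k : ℕ) : ∃ m0 : ℕ, ∀ m ≥ m0, ∀ s : ℝ,
    (m : ℝ) / 2 ≤ s → ∀ h : ℝ → ℝ, ContDiff ℝ 4 h →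
    (∀ j ≤ 4, ∀ t, |iteratedDeriv j h t| ≤ Real.log m ^ k) →
    (∀ t, (1 - e1) * Tb (Real.log m) ≤ |t| → h t = 0) →
    ∃ (ε M : ℝ) (ec : ℝ → ℝ), NUSea.Cur s ε M ((1 - e1) * Tb (Real.log m)) ec
      (fun t => h t / (s * NUSea.P t)) ∧ ε ≤ (m : ℝ) ^ (-(e1 / 2)) ∧ M ≤ Real.log m ^ (k + 1) := by
  obtain ⟨C, hC, hcur⟩ := NUSea.exists_cur
  obtain ⟨c, hc, hP⟩ := NUSea.le_P
  -- `2 C L^k / c ≤ m^{e1/2}`
  have h1 : Filter.Tendsto (fun x : ℝ => x ^ k / Real.exp (e1 / 2 * x)) Filter.atTop (nhds 0) := by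
    have := (isLittleO_pow_exp_pos_mul_atTop (k := k) (b := e1 / 2) (by positivity))
    exact this.tendsto_div_nhds_zero
  have h2 := (h1.comp (Real.tendsto_log_atTop.comp tendsto_natCast_atTop_atTop)).eventually_le_const
    (show (0 : ℝ) < c / (2 * C) by positivity)
  have h4 := (Real.tendsto_log_atTop.comp tendsto_natCast_atTop_atTop).eventually_ge_atTop
    (max (8 / 3) C)
  obtain ⟨m0, hm0⟩ := Filter.eventually_atTop.1 (h2.and (h4.and (Filter.eventually_ge_atTop 1)))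
  refine ⟨m0, fun m hm s hs h hh hd hsupp => ?_⟩
  obtain ⟨a1, a2, a3⟩ := hm0 m hm
  have a4 : 8 / 3 ≤ Real.log m := (le_max_left _ _).trans a2
  have a5 : C ≤ Real.log m := (le_max_right _ _).trans a2
  have hm1 : (0 : ℝ) < m := by exact_mod_cast a3
  have hsp : 0 < s := by linarith
  have hT : 1 ≤ Tb (Real.log m) := by unfold Tb; linarith
  have hb0 : 0 ≤ (1 - e1) * Tb (Real.log m) := mul_nonneg (by linarith) (by linarith)
  obtain ⟨ec, hec⟩ := hcur s (Real.log m ^ k) ((1 - e1) * Tb (Real.log m)) hsp hb0 h hh hd hsupp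
  refine ⟨_, _, ec, hec, ?_, ?_⟩
  · have hP1 := hP ((1 - e1) * Tb (Real.log m))
    rw [abs_of_nonneg hb0] at hP1
    have e1' : Real.exp (-(8 / 3) * ((1 - e1) * Tb (Real.log m))) = (m : ℝ) ^ (-(1 - e1)) := by
      rw [Real.rpow_def_of_pos hm1]
      congr 1
      unfold Tb
      ring
    rw [e1'] at hP1
    have e2 : (m : ℝ) * (m : ℝ) ^ (-(1 - e1)) = (m : ℝ) ^ e1 := by
      nth_rewrite 1 [← Real.rpow_one (m : ℝ)]
      rw [← Real.rpow_add hm1]
      congr 1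
      ring
    have e3 : c / 2 * (m : ℝ) ^ e1 ≤ s * NUSea.P ((1 - e1) * Tb (Real.log m)) := by
      rw [← e2]
      calc c / 2 * ((m : ℝ) * (m : ℝ) ^ (-(1 - e1))) =
            m / 2 * (c * (m : ℝ) ^ (-(1 - e1))) := by ring
        _ ≤ _ := by
            have : 0 ≤ c * (m : ℝ) ^ (-(1 - e1)) := by positivity
            gcongr
    have e4 : (m : ℝ) ^ (-(e1 / 2)) * (m : ℝ) ^ e1 = (m : ℝ) ^ (e1 / 2) := by
      rw [← Real.rpow_add hm1]
      congr 1
      ring
    have hp : 0 < (m : ℝ) ^ e1 := Real.rpow_pos_of_pos hm1 _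
    have e5 : Real.exp (e1 / 2 * Real.log m) = (m : ℝ) ^ (e1 / 2) := by
      rw [Real.rpow_def_of_pos hm1]
      congr 1
      ring
    have hK : C * Real.log m ^ k ≤ c / 2 * (m : ℝ) ^ (e1 / 2) := by
      have a1' : Real.log m ^ k / Real.exp (e1 / 2 * Real.log m) ≤ c / (2 * C) := a1
      rw [e5, div_le_iff₀ (Real.rpow_pos_of_pos hm1 _)] at a1'
      calc C * Real.log m ^ k ≤ C * (c / (2 * C) * (m : ℝ) ^ (e1 / 2)) := by gcongr
        _ = _ := by field_simp
    rw [div_le_iff₀ (by have := NUSea.P_pos ((1 - e1) * Tb (Real.log m)); positivity)]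
    calc C * Real.log m ^ k ≤ c / 2 * (m : ℝ) ^ (e1 / 2) := hK
      _ = (m : ℝ) ^ (-(e1 / 2)) * (c / 2 * (m : ℝ) ^ e1) := by rw [← e4]; ring
      _ ≤ _ := mul_le_mul_of_nonneg_left e3 (Real.rpow_nonneg hm1.le _)
  · rw [pow_succ]
    calc C * Real.log m ^ k = Real.log m ^ k * C := mul_comm _ _
      _ ≤ _ := by gcongr

/-- **the data of the sharp bound for a configuration**: curve `η`, rows `s`, cutoff of `M` pairs,
extra analytic potentials `A`, real rests `Er`, constant `c0`; at most `log m` objects at heights at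
most `(log m)²` -/
theorem gd_conf {ep e1 κ : ℝ} (hep : 0 < ep) (hep1 : ep ≤ 1 / 100) (he : 0 < e1) (he1 : e1 ≤ 1 / 4)
    (hκ : 0 < κ) (k : ℕ) : ∃ m0 : ℕ, ∀ m ≥ m0, ∀ (s R c0 : ℝ) (M : ℕ) (P : Par) (η η1 : ℝ → ℝ)
    (A : Bool → ℂ → ℂ) (Er : Bool → ℝ → ℝ) (r : ℕ) (O : Fin r → Xo) (aX aY : ℝ → ℝ),
    (m : ℝ) / 2 ≤ s → s ≤ 2 * m → (m : ℝ) ≤ 5 * M → PG (1 / 8) P → Real.log m ≤ R →
    R ≤ 2 * Real.log m ^ 2 → (1 - e1) * Tb (Real.log m) + 3 ≤ R →
    (∃ (ε Mc : ℝ) (ec : ℝ → ℝ), NUSea.Cur s ε Mc ((1 - e1) * Tb (Real.log m)) ec η ∧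
      ε ≤ (m : ℝ) ^ (-κ) ∧ Mc ≤ Real.log m ^ k) →
    (∀ t, HasDerivAt η (η1 t) t) →
    (∀ a (z : ℂ), |z.re| ≤ (1 - e1) * Tb (Real.log m) + 2 → |z.im| < ep / 2 →
      DifferentiableAt ℂ (A a) z ∧ ‖A a z‖ ≤ Real.log m ^ k) →
    (∀ a, NUR2.Ext 4 ((1 - e1) * Tb (Real.log m)) (Real.log m ^ k) (Er a)) →
    |c0| ≤ Real.log m ^ k → (r : ℝ) ≤ Real.log m → (∀ i, |ht (O i)| ≤ Real.log m ^ 2) →
    (∀ t, 0 ≤ aX t) → (∀ t, 0 ≤ aY t) → Measurable aX → Measurable aY →
    (∀ t, |t| ≤ (1 - e1) * Tb (Real.log m) → aX t = Real.exp (s * (NUSea.vc (NUAct.zt (iD η) t)).re +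
      (A true (NUAct.zt (iD η) t)).re + Er true t + c0) * ‖phP M (4 / 3 * (1 - ep)) (pA η t)‖ *
        ∏ i, potN P O i true (pA η t)) →
    (∀ t, |t| ≤ (1 - e1) * Tb (Real.log m) → aY t = Real.exp (s * (NUSea.vc (NUAct.zt (iD η) t)).re +
      (A false (NUAct.zt (iD η) t)).re + Er false t + c0) * ‖phP M (4 / 3 * (1 - ep)) (pA η t)‖ *
        ∏ i, potN P O i false (pA η t)) →
    GD m (k + 5) κ e1 (ep / 2) s R ((1 - e1) * Tb (Real.log m)) η η1 η η1 aX aY := by
  obtain ⟨m1, hm1, HL⟩ := exists_lphP (ep := ep) (e := e1) hep (by linarith) he (by linarith)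
  have hl := NUMF.l_pos
  have hlv : (98 : ℝ) / 250 < NUMF.l := by
    unfold NUMF.l
    have := Real.pi_gt_d2
    linarith
  -- the width
  have hw0 : 0 < ep / 2 := by linarith
  have hwl : ep / 2 < 1 / 8 * NUMF.l := by linarith
  obtain ⟨K0, hK0⟩ : ∃ K0 : ℝ, K0 = |KO (1 / 8) (ep / 2)| := ⟨_, rfl⟩
  have hK00 : 0 ≤ K0 := by rw [hK0]; exact abs_nonneg _
  have h2 : Filter.Tendsto (fun m : ℕ => (m : ℝ) ^ (-κ)) Filter.atTop (nhds 0) :=
    (tendsto_rpow_neg_atTop hκ).comp tendsto_natCast_atTop_atTop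
  have h3 := h2.eventually_lt_const (u := ep / 2) hw0
  have h4 := (Real.tendsto_log_atTop.comp tendsto_natCast_atTop_atTop).eventually_ge_atTop
    (max 8 (K0 + 4))
  obtain ⟨m2, hm2⟩ := Filter.eventually_atTop.1 (h3.and h4)
  refine ⟨max m1 m2, fun m hm s R c0 M P η η1 A Er r O aX aY hs1 hs2 hM hP hR1 hR2 hbR hcur hd hA hEr
    hc0 hr hht ha0 hb0 ham hbm hX hY => ?_⟩
  obtain ⟨g1, g2⟩ := hm2 m ((le_max_right _ _).trans hm)
  have hmm1 : m1 ≤ m := (le_max_left _ _).trans hm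
  obtain ⟨L, hL⟩ : ∃ L, L = Real.log m := ⟨_, rfl⟩
  have g2' : max 8 (K0 + 4) ≤ Real.log m := g2
  rw [← hL] at g2'
  have hL8 : 8 ≤ L := (le_max_left _ _).trans g2'
  have hLK : K0 + 4 ≤ L := (le_max_right _ _).trans g2'
  have hbd : (1 - e1) * Tb (Real.log m) = R1f e1 m + 1 := by
    unfold R1f Tb
    ring
  have hb2 : (1 - e1) * Tb (Real.log m) ≤ L := by
    rw [← hL]
    unfold Tb
    nlinarith
  have hb00 : 0 ≤ (1 - e1) * Tb (Real.log m) := by
    rw [← hL]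
    unfold Tb
    have : 0 ≤ 1 - e1 := by linarith
    positivity
  -- the potential
  have hF : ∀ (a : Bool) (z : ℂ), |z.re| ≤ (1 - e1) * Tb (Real.log m) + 2 → |z.im| < ep / 2 →
      DifferentiableAt ℂ (fun z => FO P O a z + A a z + lphP ep M z + (c0 : ℂ)) z ∧
      ‖FO P O a z + A a z + lphP ep M z + (c0 : ℂ)‖ ≤ L ^ (k + 5) := by
    intro a z hz1 hz2
    obtain ⟨d1, n1⟩ := hA a z hz1 hz2
    obtain ⟨d2, -, n2, -⟩ := HL m hmm1 M hM z (by rw [hbd] at hz1; linarith) hz2.le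
    have d3 := (hasDerivAt_FO O hw0 hwl hP a hz2).differentiableAt
    have n3 := norm_FO O hw0 hwl hP a hz2
    refine ⟨((d3.fun_add d1).fun_add d2).fun_add (differentiableAt_const _), ?_⟩
    rw [← hL] at n1 hc0 hr
    have hLk : 1 ≤ L ^ k := one_le_pow₀ (by linarith)
    have n4 : ‖FO P O a z‖ ≤ K0 * (L * (4 * L ^ 2)) := by
      refine n3.trans ?_
      have s1 : ∑ i, (1 + |z.re - ht (O i)|) ≤ r * (4 * L ^ 2) := by
        have : ∀ i : Fin r, 1 + |z.re - ht (O i)| ≤ 4 * L ^ 2 := by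
          intro i
          have t1 := abs_sub z.re (ht (O i))
          have t2 := hht i
          rw [← hL] at t2
          have t3 : |z.re| ≤ L + 2 := hz1.trans (by linarith)
          nlinarith
        refine (Finset.sum_le_sum fun i _ => this i).trans (le_of_eq ?_)
        rw [Finset.sum_const, Finset.card_univ, Fintype.card_fin, nsmul_eq_mul]
      have s0 : 0 ≤ ∑ i, (1 + |z.re - ht (O i)|) := Finset.sum_nonneg fun i _ => by positivity
      calc KO (1 / 8) (ep / 2) * ∑ i, (1 + |z.re - ht (O i)|) ≤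
            K0 * ∑ i, (1 + |z.re - ht (O i)|) := by
            rw [hK0]
            exact mul_le_mul_of_nonneg_right (le_abs_self _) s0
        _ ≤ K0 * (r * (4 * L ^ 2)) := mul_le_mul_of_nonneg_left s1 hK00
        _ ≤ K0 * (L * (4 * L ^ 2)) := by gcongr
    have n5 : ‖(c0 : ℂ)‖ ≤ L ^ k := by
      rw [Complex.norm_real]
      exact hc0
    calc ‖FO P O a z + A a z + lphP ep M z + (c0 : ℂ)‖
        ≤ ‖FO P O a z‖ + ‖A a z‖ + ‖lphP ep M z‖ + ‖(c0 : ℂ)‖ := by
          refine (norm_add_le _ _).trans ?_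
          gcongr
          refine (norm_add_le _ _).trans ?_
          gcongr
          exact norm_add_le _ _
      _ ≤ K0 * (L * (4 * L ^ 2)) + L ^ k + 1 + L ^ k := by gcongr
      _ ≤ K0 * (L * (4 * L ^ 2)) * L ^ k + L ^ k + L ^ k + L ^ k := by
          have : K0 * (L * (4 * L ^ 2)) * 1 ≤ K0 * (L * (4 * L ^ 2)) * L ^ k :=
            mul_le_mul_of_nonneg_left hLk (by positivity)
          linarith
      _ = (K0 * 4 * L ^ 3 + 3) * L ^ k := by ring
      _ ≤ L ^ 5 * L ^ k := by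
          refine mul_le_mul_of_nonneg_right ?_ (by positivity)
          have t1 : K0 * 4 * L ^ 3 ≤ (L - 4) * 4 * L ^ 3 := by
            have : K0 ≤ L - 4 := by linarith
            gcongr
          have t2 : 1 ≤ L ^ 3 := one_le_pow₀ (by linarith)
          nlinarith [mul_nonneg (mul_nonneg (by linarith : 0 ≤ L) (by linarith : 0 ≤ L - 8))
            (by positivity : 0 ≤ L ^ 3)]
      _ = L ^ (k + 5) := by ring
  -- the curve is in the strip
  have hη : ∀ t, |η t| < ep / 2 := by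
    intro t
    obtain ⟨ε, Mc, ec, hc, hc1, -⟩ := hcur
    have h5 := hc.O4.1 t
    exact lt_of_le_of_lt (h5.trans hc1) g1
  -- exactness
  have hex : ∀ (a : Bool) (f : ℝ → ℝ), (∀ t, |t| ≤ (1 - e1) * Tb (Real.log m) →
      f t = Real.exp (s * (NUSea.vc (NUAct.zt (iD η) t)).re + (A a (NUAct.zt (iD η) t)).re + Er a t +
        c0) * ‖phP M (4 / 3 * (1 - ep)) (pA η t)‖ * ∏ i, potN P O i a (pA η t)) →
      ∀ t, |t| ≤ (1 - e1) * Tb (Real.log m) → f t = Real.exp (s * (NUSea.vc (NUAct.zt (iD η) t)).re +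
        (FO P O a (NUAct.zt (iD η) t) + A a (NUAct.zt (iD η) t) + lphP ep M (NUAct.zt (iD η) t) +
          (c0 : ℂ)).re + Er a t) := by
    intro a f hf t ht
    have hzt : NUAct.zt (iD η) t = (t : ℂ) + (η t : ℂ) * Complex.I := rfl
    have him : |((t : ℂ) + (η t : ℂ) * Complex.I).im| < ep / 2 := by simpa using hη t
    have hre : |((t : ℂ) + (η t : ℂ) * Complex.I).re| ≤ R1f e1 m + 5 := by
      have : ((t : ℂ) + (η t : ℂ) * Complex.I).re = t := by simp
      rw [this]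
      rw [hbd] at ht
      linarith
    obtain ⟨-, -, -, n2⟩ := HL m hmm1 M hM _ hre him.le
    rw [uz_curve] at n2
    have hpr := prod_potN O hP a (η := η) (t := t) ((hη t).trans hwl)
    rw [hf t ht, hzt, n2]
    have hpA : (∏ i, potN P O i a (pA η t)) = Real.exp (FO P O a (t + (η t : ℂ) * Complex.I)).re := hpr
    rw [hpA, ← Real.exp_add, ← Real.exp_add]
    congr 1
    simp only [Complex.add_re, Complex.ofReal_re]
    ring
  refine ⟨hs1, hs2, hR1, hR2, hbd.ge, hbR, ?_, ?_, hd, hd, ha0, hb0, ham, hbm, ?_, ?_⟩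
  · obtain ⟨ε, Mc, ec, hc, hc1, hc2⟩ := hcur
    refine ⟨ε, Mc, ec, hc, hc1, hc2.trans ?_⟩
    rw [← hL]
    exact pow_le_pow_right₀ (by linarith) (by omega)
  · obtain ⟨ε, Mc, ec, hc, hc1, hc2⟩ := hcur
    refine ⟨ε, Mc, ec, hc, hc1, hc2.trans ?_⟩
    rw [← hL]
    exact pow_le_pow_right₀ (by linarith) (by omega)
  · refine ⟨L ^ (k + 5), L ^ k, fun z => FO P O true z + A true z + lphP ep M z + (c0 : ℂ), Er true,
      by positivity, by rw [hL], ?_, hF true, by rw [hL]; exact hEr true, hex true aX hX⟩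
    rw [← hL]
    exact pow_le_pow_right₀ (by linarith) (by omega)
  · refine ⟨L ^ (k + 5), L ^ k, fun z => FO P O false z + A false z + lphP ep M z + (c0 : ℂ), Er false,
      by positivity, by rw [hL], ?_, hF false, by rw [hL]; exact hEr false, hex false aY hY⟩
    rw [← hL]
    exact pow_le_pow_right₀ (by linarith) (by omega)

end

end NUS4C
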