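import Pool.Agent.NUS4.H1d
import Pool.Agent.NUS4C.H1b

/-!
# The lower bound of the exponential moments of the field (plug-in of [4.7]), explicit form
-/

set_option autoImplicit false
set_option linter.unusedSectionVars false

open MeasureTheory Set Filter Topology

namespace NUS4C

open NUS4 (Lf_neg kT mG cutF'_neg psi_win O_of_BD O_deriv_of_BD)
open NUSea (ps ps' Hy c1 c1_pos ps_cont ps_mass ps_deriv ps_abs ps_zero ps_dif xi_O)
open NUE NUOC NUKer NUR2 NUTr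

noncomputable section

variable [NUSea.Sea]
variable {δ K : ℝ} {c : ℝ → ℝ} {p n N : ℕ}

/-- the odd part of the exponent -/
def el (c : ℝ → ℝ) (h R R1 a s : ℝ) (EX EY : ℝ → ℝ) (m : Measure (Cfg p n)) (x : Fin N → ℝ) : ℝ :=
  NUR2.ell m R (fun t => s * NUSea.P t) (cutF' c h R1 a x) Uw Ug EX EY (grid (chi c h) a h x)

theorem el_neg (h R R1 a s : ℝ) (EX EY : ℝ → ℝ) (m : Measure (Cfg p n)) (x : Fin N → ℝ) :
    el c h R R1 a s EX EY m (-x) = - el c h R R1 a s EX EY m x := by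
  unfold el NUR2.ell
  rw [Lf_neg]
  have e : ∀ E : ℝ → ℝ, (fun t => cutF' c h R1 a (-x) t * E t) =
      fun t => -(cutF' c h R1 a x t * E t) := by
    intro E
    funext t
    rw [cutF'_neg]
    ring
  rw [e, e, integral_neg, integral_neg]
  simp only [nu_smul]
  rw [integral_const_mul, integral_const_mul]
  ring

/-- the displacement map of the first species -/
abbrev pX (c : ℝ → ℝ) (h R1 a s : ℝ) (x : Fin N → ℝ) : ℝ → ℝ := ps s (cutF c h R1 a x)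

/-- its derivative -/
abbrev pX' (c : ℝ → ℝ) (h R1 a s : ℝ) (x : Fin N → ℝ) : ℝ → ℝ :=
  ps' s (cutF c h R1 a x) (cutF' c h R1 a x)

/-- the displacement map of the second species -/
abbrev pY (c : ℝ → ℝ) (h R1 a s : ℝ) (x : Fin N → ℝ) : ℝ → ℝ := ps s fun t => - cutF c h R1 a x t

/-- its derivative -/
abbrev pY' (c : ℝ → ℝ) (h R1 a s : ℝ) (x : Fin N → ℝ) : ℝ → ℝ :=
  ps' s (fun t => - cutF c h R1 a x t) fun t => - cutF' c h R1 a x t

/-- the field data of the two species at the mode `x` -/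
structure FD (c : ℝ → ℝ) (h R R1 a s l1 : ℝ) (ηX ηX1 ηY ηY1 aX aY EX EY : ℝ → ℝ) (x : Fin N → ℝ) :
    Prop where
  oX : OB R l1 (pX c h R1 a s x) (pX' c h R1 a s x) (fun t => ‖1 + iD ηX1 t‖ * aX t) EX
    (IX R (fun t => s * NUSea.P t) Uw Ug (kw (iD ηX) (iD ηX1)) (kg (iD ηX) (iD ηY)))
    (kw (iD ηX) (iD ηX1)) (kT ηX ηX1 (pX c h R1 a s x) (pX' c h R1 a s x))
  oY : OB R l1 (pY c h R1 a s x) (pY' c h R1 a s x) (fun t => ‖1 + iD ηY1 t‖ * aY t) EY
    (IY R (fun t => s * NUSea.P t) Uw Ug (kw (iD ηY) (iD ηY1)) (kg (iD ηX) (iD ηY)))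
    (kw (iD ηY) (iD ηY1)) (kT ηY ηY1 (pY c h R1 a s x) (pY' c h R1 a s x))

/-- the size of the displacement -/
def sz (s R1 : ℝ) (x : Fin N → ℝ) : ℝ := (∑ j, |x j|) / (s * NUSea.P (R1 + 1))

/-- the error -/
def er (C R R0 R1 lam l1 S s : ℝ) (q : ℕ) (x : Fin N → ℝ) : ℝ :=
  C * ((R1 / (R1 - R0)) ^ (q + 4) * ((1 + R1) ^ q)⁻¹ * ∑ j, |x j|) ^ 2 +
    (2 * S * (l1 + C * R ^ 3 * (∑ j, |x j|) * sz s R1 x +
      2 * (C * R ^ 7 * (lam + sz s R1 x)) * (2 * R * (C * ∑ j, |x j|))) +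
    4 * S * (C * R ^ 7 * (lam + sz s R1 x)) +
    2 * (l1 + C * R ^ 3 * (∑ j, |x j|) * sz s R1 x) * (2 * R * (C * ∑ j, |x j|)) +
    2 * (C * R ^ 7 * (lam + sz s R1 x)) * (2 * R * (C * ∑ j, |x j|)) ^ 2)

/-- **explicit lower bound of the exponential moments** -/
theorem h1_core (hP : Prof δ K c) {h : ℝ} (hh : 0 < h) (hK : K * h < Real.pi) (q : ℕ) :
    ∃ C cs : ℝ, 1 ≤ C ∧ 0 < cs ∧ ∀ {N p n : ℕ} (R R0 R1 a s lam l1 S : ℝ) (x : Fin N → ℝ)
    (ηX ηX1 ηY ηY1 aX aY EX EY : ℝ → ℝ), 0 < s → 0 ≤ R0 → R0 < R1 → R1 + 1 < R →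
    (∀ j : Fin N, |a + (j : ℕ) * h| ≤ R0) → sz s R1 x ≤ cs →
    O 4 lam ηX → O 4 lam ηY → (∀ t, HasDerivAt ηX (ηX1 t) t) → (∀ t, HasDerivAt ηY (ηY1 t) t) →
    C * R ^ 7 * (lam + sz s R1 x) ≤ 1 → FD c h R R1 a s l1 ηX ηX1 ηY ηY1 aX aY EX EY x →
    IsFiniteMeasure (mG (p := p) (n := n) R ηX ηX1 ηY ηY1 aX aY) →
    Rig (mG (p := p) (n := n) R ηX ηX1 ηY ηY1 aX aY) R (fun t => s * NUSea.P t) S → 0 ≤ S → 0 ≤ l1 →
    ENNReal.ofReal ((mG (p := p) (n := n) R ηX ηX1 ηY ηY1 aX aY).real univ *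
      Real.exp ((∑ i, ∑ j, x i * toep (fun θ => rs c (θ / h)) N i j * x j) / 2 +
        el c h R R1 a s EX EY (mG (p := p) (n := n) R ηX ηX1 ηY ηY1 aX aY) x -
        er C R R0 R1 lam l1 S s q x)) ≤
    ∫⁻ y, ENNReal.ofReal (Real.exp (∑ i, grid (chi c h) a h x (y.1 i) -
      ∑ j, grid (chi c h) a h x (y.2 j))) ∂(mG (p := p) (n := n) R ηX ηX1 ηY ηY1 aX aY) := by
  obtain ⟨C1, hC1, H1⟩ := psi_win hP hh hK q
  obtain ⟨C2, cs, hC2, hcs, H2⟩ := geo hP h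
  obtain ⟨C3, hC3, H3⟩ := exists_kers
  obtain ⟨C4, hC4, H4⟩ := exists_KC1_of_O
  obtain ⟨C5, hC5, H5⟩ := O.delta 3
  obtain ⟨C6', hC6'⟩ := BD_chig hP 4 h
  obtain ⟨C6, hC6⟩ : ∃ C6, C6 = |C6'| + 1 := ⟨_, rfl⟩
  have hC60 : 1 ≤ C6 := by rw [hC6]; linarith [abs_nonneg C6']
  -- the common constant
  obtain ⟨C, hCd⟩ : ∃ C, C = C1 + C2 + C3 * C2 + C4 * (C5 * (C6 * C2)) := ⟨_, rfl⟩
  have q1 : 1 ≤ C3 * C2 := one_le_mul_of_one_le_of_one_le hC3 hC2
  have q2 : 0 ≤ C4 * (C5 * (C6 * C2)) := by positivity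
  refine ⟨C, cs / C2, by linarith, by positivity, ?_⟩
  intro N p n R R0 R1 a s lam l1 S x ηX ηX1 ηY ηY1 aX aY EX EY hs hR0 hR01 hR hg hsz oηX oηY dηX dηY
    hsm hF hfin hrig hS hl1
  obtain ⟨A, hA⟩ : ∃ A, A = ∑ j, |x j| := ⟨_, rfl⟩
  have hA0 : 0 ≤ A := by rw [hA]; exact Finset.sum_nonneg fun j _ => abs_nonneg _
  have hP0 := NUSea.P_pos (R1 + 1)
  have hsP : 0 < s * NUSea.P (R1 + 1) := mul_pos hs hP0
  obtain ⟨z, hz⟩ : ∃ z, z = sz s R1 x := ⟨_, rfl⟩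
  have hzA : z = A / (s * NUSea.P (R1 + 1)) := by rw [hz, hA]; rfl
  have hz0 : 0 ≤ z := by rw [hzA]; positivity
  have hR1 : 1 < R := by linarith
  have hR1' : (1:ℝ) ≤ R := hR1.le
  have hlam := oηX.nonneg
  rw [← hz] at hsz hsm
  have g0 : C2 * ∑ j, |x j| ≤ cs * (s * NUSea.P (R1 + 1)) := by
    rw [← hA]
    rw [hzA, div_le_div_iff₀ hsP (by linarith)] at hsz
    linarith
  obtain ⟨tr, bF', oX, oY, dX, dY, zX, zY, aX', aY'⟩ := H2 R R1 a s x hs (by linarith) hR g0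
  rw [← hA] at bF' oX oY
  rw [← hzA] at oX oY
  -- smallness of the displacement
  have hR7 : (1:ℝ) ≤ R ^ 7 := one_le_pow₀ hR1'
  have hCC : C3 * C2 ≤ C := by rw [hCd]; linarith
  have e1 : C3 * R ^ 7 * (lam + C2 * z) ≤ C * R ^ 7 * (lam + z) := by
    calc C3 * R ^ 7 * (lam + C2 * z) ≤ C3 * R ^ 7 * (C2 * (lam + z)) := by
          refine mul_le_mul_of_nonneg_left ?_ (by positivity)
          nlinarith
      _ = C3 * C2 * (R ^ 7 * (lam + z)) := by ring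
      _ ≤ C * (R ^ 7 * (lam + z)) := mul_le_mul_of_nonneg_right hCC (by positivity)
      _ = _ := by ring
  have hle1 : C2 * z ≤ 1 := by
    have h1 : C3 * R ^ 7 * (C2 * z) ≤ 1 := by
      refine le_trans ?_ (e1.trans hsm)
      refine mul_le_mul_of_nonneg_left (by linarith) (by positivity)
    have h2 : 1 ≤ C3 * R ^ 7 := one_le_mul_of_one_le_of_one_le hC3 hR7
    have h3 : 0 ≤ C2 * z := by positivity
    nlinarith
  have kers := H3 R hR1' lam (C2 * z) ηX ηX1 ηY ηY1 _ _ _ _ oηX oηY oX oY dηX dηY dX dY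
    (fun t ht => by
      rw [add_sub_cancel]
      exact (tr.bX t).2 ht)
    (fun t ht => by
      rw [add_sub_cancel]
      exact (tr.bY t).2 ht) (e1.trans hsm)
  obtain ⟨Λ, hΛ⟩ : ∃ Λ, Λ = C * R ^ 7 * (lam + z) := ⟨_, rfl⟩
  rw [← hΛ] at e1
  have e2 : C3 * R ^ 7 * lam ≤ Λ := by
    refine le_trans ?_ e1
    refine mul_le_mul_of_nonneg_left ?_ (by positivity)
    have : 0 ≤ C2 * z := by positivity
    linarith
  have cη : ∀ {η : ℝ → ℝ}, O 4 lam η → Measurable (iD η) := by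
    intro η hη
    have := hη.cont.measurable
    unfold iD
    fun_prop
  have hψX : ∀ t, pX c h R1 a s x t = t + (ps s (cutF c h R1 a x) t - t) := fun t => by ring
  have hψY : ∀ t, pY c h R1 a s x t = t + (ps s (fun t => - cutF c h R1 a x t) t - t) := fun t => by ring
  have pkX : Pk R Λ (pX c h R1 a s x) (pX c h R1 a s x) Uw (pW (iD ηX)) (kw (iD ηX) (iD ηX1))
      (kT ηX ηX1 (pX c h R1 a s x) (pX' c h R1 a s x)) :=
    { li := Uw_li
      ev := Uw_even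
      kc := kers.kX.mono e2
      kc' := kers.kX'.mono e1
      rel := kers.relX hψX (fun t ht => (tr.bX t).2 ht)
      log := fun u v hu hv hne => kers.logX hψX dX hu hv hne
      q0 := pW_nonneg _
      qm := pW_meas (cη oηX) }
  have pkY : Pk R Λ (pY c h R1 a s x) (pY c h R1 a s x) Uw (pW (iD ηY)) (kw (iD ηY) (iD ηY1))
      (kT ηY ηY1 (pY c h R1 a s x) (pY' c h R1 a s x)) :=
    { li := Uw_li
      ev := Uw_even
      kc := kers.kY.mono e2
      kc' := kers.kY'.mono e1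
      rel := kers.relY hψY (fun t ht => (tr.bY t).2 ht)
      log := fun u v hu hv hne => kers.logY hψY dY hu hv hne
      q0 := pW_nonneg _
      qm := pW_meas (cη oηY) }
  have pkc : Pk R Λ (pX c h R1 a s x) (pY c h R1 a s x) Ug (pG (iD ηX) (iD ηY)) (kg (iD ηX) (iD ηY))
      (kg (cD (fun t => pX c h R1 a s x t - t) (iD ηX)) (cD (fun t => pY c h R1 a s x t - t) (iD ηY))) :=
    { li := Ug_li
      ev := Ug_even
      kc := kers.kc.mono e2
      kc' := kers.kc'.mono e1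
      rel := kers.relc hψX hψY (fun t ht => (tr.bX t).2 ht) (fun t ht => (tr.bY t).2 ht)
      log := fun u v hu hv _ => kers.logc hψX hψY hu hv
      q0 := pG_nonneg _ _
      qm := pG_meas (cη oηX) (cη oηY) }
  -- the test function
  have bχ : BD 4 (C6 * A) (grid (chi c h) a h x) := by
    have h1 := hC6' a x
    rw [← hA] at h1
    exact h1.mono (mul_le_mul_of_nonneg_right (by rw [hC6]; linarith [le_abs_self C6']) hA0)
  have dχ : ∀ t, HasDerivAt (grid (chi c h) a h x) (deriv (grid (chi c h) a h x) t) t := bχ.hasDeriv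
  have oχ : O 3 (C6 * A) (deriv (grid (chi c h) a h x)) := O_deriv_of_BD bχ dχ
  obtain ⟨l2, hl2⟩ : ∃ l2, l2 = C * R ^ 3 * A * z := ⟨_, rfl⟩
  have hchi : ∀ ψ : ℝ → ℝ, O 4 (C2 * z) (fun t => ψ t - t) →
      KC R l2 (fun t _ => ((grid (chi c h) a h x (ψ t) - grid (chi c h) a h x t : ℝ) : ℂ)) := by
    intro ψ hψ
    have h1 := H5 dχ oχ hψ.lower hle1
    have h2 := (H4 R hR1' _ _ h1).left
    refine (h2.mono ?_).congr fun t t' _ _ => ?_
    · have h3 : C4 * (C5 * (C6 * C2)) ≤ C := by rw [hCd]; linarith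
      calc C4 * R ^ 3 * (C5 * (C6 * A * (C2 * z))) = C4 * (C5 * (C6 * C2)) * (R ^ 3 * A * z) := by ring
        _ ≤ C * (R ^ 3 * A * z) := mul_le_mul_of_nonneg_right h3 (by positivity)
        _ = l2 := by rw [hl2]; ring
    · rw [add_sub_cancel]
  have key := r2core (p := p) (n := n) ⟨tr, pkX, pkY, pkc, kers.sX, kers.sX', kers.sY, kers.sY', hF.oX,
    hF.oY, bχ.1.continuous, hchi _ oX, hchi _ oY, hfin, hrig⟩
  refine (ENNReal.ofReal_le_ofReal ?_).trans key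
  refine mul_le_mul_of_nonneg_left (Real.exp_le_exp.2 ?_) measureReal_nonneg
  -- comparison of the exponents
  have h1 := H1 a x hR0 hR01 hR hg
  obtain ⟨N1, hN1⟩ : ∃ N1, N1 = ∫ t, |cutF' c h R1 a x t| ∂(mW R) := ⟨_, rfl⟩
  have hN10 : 0 ≤ N1 := by rw [hN1]; exact integral_nonneg fun t => abs_nonneg _
  have hCA : C2 * A ≤ C * A := mul_le_mul_of_nonneg_right (by rw [hCd]; linarith) hA0
  have hN1' : N1 ≤ 2 * R * (C * A) := by
    have h2 : N1 ≤ ∫ _t, C * A ∂(mW R) := by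
      rw [hN1]
      refine integral_mono_of_nonneg (Eventually.of_forall fun t => abs_nonneg _)
        (integrable_const _) (Eventually.of_forall fun t => (bF' t).trans hCA)
    refine h2.trans (le_of_eq ?_)
    rw [integral_const, smul_eq_mul]
    congr 1
    unfold mW
    rw [measureReal_restrict_apply_univ, Real.volume_real_Icc_of_le (by linarith)]
    ring
  have hl20 : 0 ≤ l2 := by rw [hl2]; have : 0 ≤ C := by linarith
                           positivity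
  have hΛ0 : 0 ≤ Λ := by rw [hΛ]; have : 0 ≤ C := by linarith
                         positivity
  have hC1C : C1 ≤ C := by rw [hCd]; linarith
  have h3 : 2 * S * (l1 + l2 + 2 * Λ * N1) + 4 * S * Λ + 2 * (l1 + l2) * N1 + 2 * Λ * N1 ^ 2 ≤
      2 * S * (l1 + l2 + 2 * Λ * (2 * R * (C * A))) + 4 * S * Λ +
        2 * (l1 + l2) * (2 * R * (C * A)) + 2 * Λ * (2 * R * (C * A)) ^ 2 := by
    gcongr
  have h4 : C1 * ((R1 / (R1 - R0)) ^ (q + 4) * ((1 + R1) ^ q)⁻¹ * ∑ j, |x j|) ^ 2 ≤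
      C * ((R1 / (R1 - R0)) ^ (q + 4) * ((1 + R1) ^ q)⁻¹ * ∑ j, |x j|) ^ 2 :=
    mul_le_mul_of_nonneg_right hC1C (sq_nonneg _)
  unfold er el err
  rw [← hA, ← hz, ← hl2, ← hΛ] at *
  rw [← hN1]
  linarith

end

end NUS4C
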