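import Pool.Agent.NUS4.H1f
import Pool.Agent.NUS4C.H1e

/-!
# (H1) of `NUS4.core_lint` for the gas `NU42.WO` on curves `id + i η`
-/

set_option autoImplicit false
set_option linter.unusedSectionVars false

open MeasureTheory Set Filter Topology

namespace NUS4C

open NUS4 (gN gM gp R1f Xf mG Wt Fi off abs_grid_le h1_lint)
open NUSea (ps ps' Hy c1 c1_pos ps_cont ps_mass ps_deriv ps_abs ps_zero ps_dif xi_O)
open NUE NUOC NUKer NUR2 NUTr
open scoped ENNReal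

noncomputable section

variable [NUSea.Sea]
variable {δ K : ℝ} {c : ℝ → ℝ}

/-- **(H1)**: the second alternative of `NUS4.core_lint`.  `X = (1 - 2 e) (3/8) log m`,
`R1 = (1 - e) (3/8) log m - 1`. -/
theorem h1_final (hP : Prof δ K c) {h : ℝ} (hh : 0 < h) (hK : K * h < Real.pi) (k : ℕ) {κ e η : ℝ}
    (hκ : 0 < κ) (he : 0 < e) (he1 : e ≤ 1 / 4) (hη : 0 < η) : ∃ (m0 : ℕ) (e' : ℝ), 1 ≤ m0 ∧ 0 ≤ e' ∧
    ∀ m : ℕ, m0 ≤ m → ∀ {p n : ℕ} (R s lam l1 S : ℝ) (ηX ηX1 ηY ηY1 aX aY EX EY : ℝ → ℝ),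
    (m : ℝ) / 2 ≤ s → 3 / 8 * Real.log m ≤ R → R ≤ Real.log m ^ k →
    O 4 lam ηX → O 4 lam ηY → (∀ t, HasDerivAt ηX (ηX1 t) t) → (∀ t, HasDerivAt ηY (ηY1 t) t) →
    lam ≤ (m : ℝ) ^ (-κ) → 0 ≤ l1 → l1 ≤ (m : ℝ) ^ (-κ) → 0 ≤ S → S ≤ Real.log m ^ k →
    Measurable aX → Measurable aY →
    (∀ x : Fin (gN h (Xf e m)) → ℝ, ∑ i, x i ^ 2 ≤ (2 * ((gN h (Xf e m) : ℕ) : ℝ) + 4) / η →
      FD c h R (R1f e m) (off h (Xf e m)) s l1 ηX ηX1 ηY ηY1 aX aY EX EY x) →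
    IsFiniteMeasure (mG (p := p) (n := n) R ηX ηX1 ηY ηY1 aX aY) →
    Rig (mG (p := p) (n := n) R ηX ηX1 ηY ηY1 aX aY) R (fun t => s * NUSea.P t) S →
    ∀ cc : Fin (gN h (Xf e m)) → ℝ, ∃ l : (Fin (gN h (Xf e m)) → ℝ) → ℝ, (∀ g, l (-g) = - l g) ∧
    ∀ g : Fin (gN h (Xf e m)) → ℝ, ∑ i, g i ^ 2 ≤ (2 * ((gN h (Xf e m) : ℕ) : ℝ) + 4) / η →
      (∫⁻ x in Bx R, Wt (p := p) (n := n) ηX ηX1 ηY ηY1 aX aY x) * ENNReal.ofReal (Real.exp
        ((∑ i, ∑ j, g i * toep (fun θ => rs c (θ / h)) (gN h (Xf e m)) i j * g j) / 2 + l g - e')) ≤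
      ∫⁻ x in Bx R, Wt (p := p) (n := n) ηX ηX1 ηY ηY1 aX aY x *
        ENNReal.ofReal (Real.exp (∑ i, g i * Fi c h (Xf e m) cc i x)) := by
  obtain ⟨C, cs, hC, hcs, H⟩ := h1_core hP hh hK 2
  obtain ⟨m0, e', hm0, he', HN⟩ := er_num k hκ he he1 hh hη hC hcs
  refine ⟨m0, e', hm0, he', ?_⟩
  intro m hm p n R s lam l1 S ηX ηX1 ηY ηY1 aX aY EX EY hs hRl hR oX oY dX dY hlam hl0 hl hS0 hS
    maX maY hF hfin hrig cc
  have hmr : (1:ℝ) ≤ m := by exact_mod_cast hm0.trans hm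
  have hL : 0 ≤ Real.log m := Real.log_nonneg hmr
  have mη : ∀ {u : ℝ → ℝ} {u1 : ℝ → ℝ}, O 4 lam u → (∀ t, HasDerivAt u (u1 t) t) → Measurable u1 := by
    intro u u1 h1 h2
    obtain ⟨-, u2, h3, h4⟩ := h1
    have e1 : u2 = u1 := funext fun t => (h3 t).unique (h2 t)
    rw [← e1]
    exact h4.cont.measurable
  have hRR : 0 ≤ R := le_trans (by positivity) hRl
  refine ⟨fun g => el c h R (R1f e m) (off h (Xf e m)) s EX EY
    (mG (p := p) (n := n) R ηX ηX1 ηY ηY1 aX aY) g - ∑ i, g i * cc i, fun g => ?_, fun g hg => ?_⟩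
  · simp only
    rw [el_neg]
    have e1 : ∑ i, (-g) i * cc i = -∑ i, g i * cc i := by
      rw [← Finset.sum_neg_distrib]
      refine Finset.sum_congr rfl fun i _ => ?_
      rw [Pi.neg_apply]
      ring
    rw [e1]
    ring
  · obtain ⟨n1, n2, n3, n4, n5⟩ := HN m hm R s lam l1 S hs hRR hR oX.nonneg hlam
      hl0 hl hS0 hS g hg
    have hs0 : 0 < s := by linarith
    have hR1R : R1f e m + 1 < R := by
      have h1 : R1f e m + 1 = (1 - e) * (3 / 8 * Real.log m) := by unfold R1f; ring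
      rw [h1]
      have h2 : Xf e m < R1f e m := n2
      unfold Xf R1f at h2
      nlinarith
    have key := H (p := p) (n := n) R (Xf e m) (R1f e m) (off h (Xf e m)) s lam l1 S g ηX ηX1 ηY ηY1
      aX aY EX EY hs0 n1 n2 hR1R (fun j => abs_grid_le hh n1 j) n3 oX oY dX dY n4 (hF g hg) hfin hrig
      hS0 hl0
    have k2 := h1_lint (p := p) (n := n) oX.cont.measurable (mη oX dX) oY.cont.measurable (mη oY dY)
      maX maY hP g cc hfin key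
    refine le_trans ?_ k2
    refine mul_le_mul_right (ENNReal.ofReal_le_ofReal (Real.exp_le_exp.2 ?_)) _
    simp only
    linarith

end

end NUS4C
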