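import Pool.Agent.NUS4C.SharpD
import Pool.Agent.NUS4.SharpI
import Pool.Agent.NUSea.H0.Inst

/-!
# The sharp bound of the gas of a configuration

`sharpI`: as `NUH0.crude`, for at most `log m` objects at heights at most `(log m)²`, with the factor
`m ^ (- 1/2 + ε + e)`.
-/

set_option autoImplicit false
set_option linter.unusedSectionVars false

open MeasureTheory Set Filter Topology

namespace NUS4C

open NUS4 (win_le_sq)
open NUSea (MFs)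
open NUSea.H0 (Hyp1 Shl Ex1 W0 tC tC_ge Inst Nums hyp1 NT Ex1_le)
open NUH0 (shF shF_nonneg T0i T0i_cost log_qc T0c qc)
open NUE NUOC NUKer NUR2 NUTr NUDi NUDispW NUEnW
open scoped ENNReal

noncomputable section

variable [NUSea.Sea]

/-- **the sharp bound of the gas of a configuration** -/
theorem sharpI {ε k A κ ε' : ℝ} (hε : 0 < ε) (hε1 : ε ≤ 1) (hk : 0 ≤ k) (hA : 1 ≤ A) (hκ : 0 < κ)
    (hε' : 0 < ε') (hε'1 : ε' ≤ 1 / 200) : ∃ C : ℝ, 0 ≤ C ∧ ∀ (kk : ℕ) {e w x : ℝ}, 0 < e →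
    e ≤ 1 / 4 → 0 < w → w ≤ 1 / 10 → 0 < x → ∃ (C' : ℝ) (m0 : ℕ), 1 ≤ C' ∧ 3 ≤ m0 ∧ ∀ m ≥ m0,
    ∀ {X : NUSea.H0.Dat} {p n r : ℕ} {h : Fin r → ℝ} {T' b : ℝ} {η η1 : Bool → ℝ → ℝ},
    Inst X p n k A κ m h T' b η η1 → 0 ≤ b → b ≤ Real.log m →
    ∀ {aX aY cf B : ℝ → ℝ} {D q : ℝ}, Shl X aX aY cf B D q → 7 / 3 + 2 * ε' + 1 / 10 ≤ q →
    GD m kk κ e w X.s (2 * Real.log m ^ 2) b (η true) (η1 true) (η false) (η1 false)
      (fun t => aX t * cf t) (fun t => aY t * cf t) →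
    ∀ {Y : ℝ}, 3 / 8 * Real.log m ≤ T' → T' ≤ Real.log m → 0 ≤ Y → Y ≤ Real.log m ^ 2 →
    (∀ i, |h i| ≤ T' + Y) → (r : ℝ) ≤ Real.log m →
    ∀ {N0 e1 : ℝ}, C * e1 ≤ ε' → (∀ T, T0i T' Y A r m ≤ T → NT X T ≤ N0 + e1 * T) →
    ∫⁻ y, ENNReal.ofReal (W0 X p n aX aY cf y) ≤ ENNReal.ofReal (C' * ((p.factorial : ℝ) * n.factorial *
      Real.exp (MFs X.s p n + X.En + ((7 / 3 + 2 * ε') * T' + 12 / 5 * Y + 6 * r + C * (1 + N0) +
        x * (win Finset.univ h + 1 + Real.log m) + 1)) *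
        (1 + shF D q (7 / 3 + 2 * ε') (T0i T' Y A r m))) * (m : ℝ) ^ (-(1 / 2 : ℝ) + (ε + e))) := by
  obtain ⟨C, N, hC0, hN, HD⟩ := sharpD hε hε1 hε' k
  refine ⟨C, hC0, ?_⟩
  intro kk e w x he he1 hw hw1 hx
  have hKc := (Kc_pos (by norm_num : (0 : ℝ) < 5 / 2)).le
  obtain ⟨C₂, hC₂⟩ : ∃ C₂ : ℝ, C₂ = 4 * (2 + N + N) * (A ^ 2 * Kc (5 / 2)) +
    8 * A ^ 2 * (2 + N + N) ^ 2 + (tC * k) ^ 2 := ⟨_, rfl⟩
  have hC₂0 : 0 ≤ C₂ := by rw [hC₂]; positivity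
  obtain ⟨C', m1, hC', hm1, HM⟩ := HD hC₂0 kk hκ he he1 hw hw1
  obtain ⟨m2, HH⟩ := hyp1 (k := k) (A := A) (κ := κ) hk hA hκ (x := x) (N := N) (c := 2) hx hN 2
  obtain ⟨m3, HT⟩ := T0i_cost (x := x) (ε' := 2 * ε') hx A hA (by linarith)
  obtain ⟨m4, hm4⟩ := (Real.tendsto_log_atTop.comp tendsto_natCast_atTop_atTop).eventually
    (eventually_ge_atTop (20 : ℝ)) |>.exists_forall_of_atTop
  obtain ⟨m5, HQ⟩ := log_qc (x := 1) one_pos A hA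
  refine ⟨C', max (max m1 m2) (max (max m3 m4) m5), hC', hm1.trans ((le_max_left _ _).trans
    (le_max_left _ _)), ?_⟩
  intro m hm X p n r h T' b η η1 hI hb0 hb aX aY cf B D q hS hq hG Y hT1 hT2 hY hY2 hh hr N0 e1 he1'
    hNT
  have hmm1 : m1 ≤ m := ((le_max_left _ _).trans (le_max_left _ _)).trans hm
  have hmm2 : m2 ≤ m := ((le_max_right _ _).trans (le_max_left _ _)).trans hm
  have hmm34 : max m3 m4 ≤ m := ((le_max_left _ _).trans (le_max_right _ _)).trans hm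
  have hmm3 : m3 ≤ m := (le_max_left _ _).trans hmm34
  have hmm4 : m4 ≤ m := (le_max_right _ _).trans hmm34
  have hmm5 : m5 ≤ m := ((le_max_right _ _).trans (le_max_right _ _)).trans hm
  have hm3' : 3 ≤ m := hm1.trans hmm1
  have hmr : (3 : ℝ) ≤ m := by exact_mod_cast hm3'
  have hmp : (0:ℝ) < m := by linarith
  have hL := hm4 m hmm4
  simp only [Function.comp] at hL
  obtain ⟨L, hLd⟩ : ∃ L, L = Real.log m := ⟨_, rfl⟩
  have hq5 := HQ m hmm5 r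
  rw [← hLd] at hL hb hT1 hT2 hY2 hr hq5
  have hr0 : (0:ℝ) ≤ r := Nat.cast_nonneg r
  have hLp : 0 ≤ Real.log m := by rw [← hLd]; linarith
  have hL2 : 20 * L ≤ L ^ 2 := by nlinarith
  have hT0 : T0i T' Y A r m ≤ 3 / 2 * L ^ 2 := by
    unfold T0i T0c
    nlinarith
  obtain ⟨ε1, c1, mm, hn, hH⟩ := HH m hmm2 hI hb0 (R1 := 2 * L ^ 2) (by rw [← hLd]; nlinarith)
    (by rw [← hLd]) (Y := Y) (by rw [← hLd]; exact hT1) (by rw [← hLd]; exact hT2) hY hh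
    (by nlinarith)
  have hwin : win Finset.univ h ≤ L ^ 2 := by
    refine (win_le_sq h).trans ?_
    exact pow_le_pow_left₀ hr0 hr 2
  have hwin0 := win_nonneg (Finset.univ : Finset (Fin r)) h
  have hT0p := hH.T0p
  have hcrv : Crv X (η true) (η1 true) (η false) (η1 false) :=
    ⟨hI.dD true, hI.dD1 true, hI.dD false, hI.dD1 false⟩
  have hm26 : mm ^ 2 + (tC * k) ^ 2 ≤ C₂ * Real.log m ^ 6 := by
    rw [← hLd, hC₂]
    have hL6 : 1 ≤ L ^ 6 := one_le_pow₀ (by linarith)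
    have h46 : L ^ 4 ≤ L ^ 6 := pow_le_pow_right₀ (by linarith) (by norm_num)
    have h1 : 2 * L ^ 2 + N ≤ (2 + N + N) * L ^ 2 := by nlinarith
    have h0 : 0 ≤ A ^ 2 * Kc (5 / 2) := by positivity
    have h2 : A ^ 2 * Kc (5 / 2) * win Finset.univ h ≤ A ^ 2 * Kc (5 / 2) * L ^ 2 := by gcongr
    have h3 : 0 ≤ A ^ 2 * Kc (5 / 2) * win Finset.univ h := by positivity
    have h4 : 4 * (2 * L ^ 2 + N) * (A ^ 2 * Kc (5 / 2) * win Finset.univ h) ≤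
        4 * ((2 + N + N) * L ^ 2) * (A ^ 2 * Kc (5 / 2) * L ^ 2) := by gcongr
    have h5 : 8 * A ^ 2 * (2 * L ^ 2 + N) ^ 2 ≤ 8 * A ^ 2 * ((2 + N + N) * L ^ 2) ^ 2 := by gcongr
    calc mm ^ 2 + (tC * k) ^ 2 ≤ 4 * (2 * L ^ 2 + N) * (A ^ 2 * Kc (5 / 2) * win Finset.univ h) +
          8 * A ^ 2 * (2 * L ^ 2 + N) ^ 2 + (tC * k) ^ 2 := by
          have := hn.mw
          linarith
      _ ≤ 4 * ((2 + N + N) * L ^ 2) * (A ^ 2 * Kc (5 / 2) * L ^ 2) +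
          8 * A ^ 2 * ((2 + N + N) * L ^ 2) ^ 2 + (tC * k) ^ 2 * 1 := by linarith
      _ = (4 * (2 + N + N) * (A ^ 2 * Kc (5 / 2)) + 8 * A ^ 2 * (2 + N + N) ^ 2) * L ^ 4 + (tC * k) ^ 2 * 1 := by
          ring
      _ ≤ (4 * (2 + N + N) * (A ^ 2 * Kc (5 / 2)) + 8 * A ^ 2 * (2 + N + N) ^ 2) * L ^ 6 + (tC * k) ^ 2 * L ^ 6 := by
          gcongr
      _ = _ := by ring
  obtain ⟨g, hg⟩ : ∃ g, g = 7 / 3 + 2 * ε' := ⟨_, rfl⟩
  have hg0 : 0 ≤ g := by rw [hg]; linarith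
  have hgq : g < q := by rw [hg]; linarith
  have key := HM m hmm1 hH hS hcrv (b := b) (by rw [hLd]; exact hG) hm26 hg0 hgq
    (E1 := MFs X.s p n + X.En + (7 / 3 + 2 * ε') * T0i T' Y A r m + (C * (1 + N0) + 1))
    (fun T hT => by
      have h1 := Ex1_le (X := X) (p := p) (n := n) (ε := ε1) (ε' := ε') (C := C)
        (T0 := T0i T' Y A r m) (T := T) (N0 := N0 + e1 * T0i T' Y A r m) (e1 := e1) hC0 he1' hT (by
            have := hNT T hT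
            linarith)
      have h2 := hn.e1
      have h4 : C * (e1 * T0i T' Y A r m) ≤ ε' * T0i T' Y A r m := by
        rw [← mul_assoc]
        gcongr
      rw [hg]
      linarith)
    (by
      rw [← hLd]
      have h1 : 1 / 10 ≤ q - g := by rw [hg]; linarith
      have h2 : L ^ 2 / 2 ≤ 2 * L ^ 2 - T0i T' Y A r m := by linarith
      have h3 : 1 / 10 * (L ^ 2 / 2) ≤ (q - g) * (2 * L ^ 2 - T0i T' Y A r m) :=
        mul_le_mul h1 h2 (by positivity) (by linarith)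
      nlinarith)
  refine key.trans (ENNReal.ofReal_le_ofReal ?_)
  have h5 := HT m hmm3 r (T' := T') hY
  have hsh := shF_nonneg (T0 := T0i T' Y A r m) hS.D0 hgq
  have h3 := hn.cm
  have hexp : Real.exp (MFs X.s p n + X.En + (7 / 3 + 2 * ε') * T0i T' Y A r m + (C * (1 + N0) + 1) +
      176 * c1 * (2 * L ^ 2 + N) * mm ^ 2) ≤
      Real.exp (MFs X.s p n + X.En + ((7 / 3 + 2 * ε') * T' + 12 / 5 * Y + 6 * r + C * (1 + N0) +
        x * (win Finset.univ h + 1 + Real.log m) + 1)) := by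
    refine Real.exp_le_exp.2 ?_
    linarith
  have hmq : 0 ≤ (m : ℝ) ^ (-(1 / 2 : ℝ) + (ε + e)) := (Real.rpow_pos_of_pos hmp _).le
  rw [← hg] at hexp ⊢
  gcongr

end

end NUS4C
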